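import Pool.Agent.Helper35.PQF.St

/-! Module HS1: Frobenius norm. -/

set_option autoImplicit false

open Filter Topology Matrix Set MeasureTheory
open scoped ENNReal ComplexOrder

namespace Pool.Agent.Helper38.PQF

open Pool.Agent.Helper35.PM

theorem hs1 : St_HS1 := by
  refine ⟨fun A B => ?_, fun A => ?_, fun A => ?_, fun A => ⟨?_, ?_⟩⟩
  · have h1 : ∀ i j, ‖(A * B) i j‖ ^ 2 ≤ (∑ k, ‖A i k‖ ^ 2) * ∑ k, ‖B k j‖ ^ 2 := by
      intro i j
      have h2 : ‖(A * B) i j‖ ≤ ∑ k, ‖A i k‖ * ‖B k j‖ := by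
        rw [Matrix.mul_apply]
        refine (norm_sum_le _ _).trans (le_of_eq ?_)
        exact Finset.sum_congr rfl fun k _ => norm_mul _ _
      calc ‖(A * B) i j‖ ^ 2 ≤ (∑ k, ‖A i k‖ * ‖B k j‖) ^ 2 :=
            pow_le_pow_left₀ (norm_nonneg _) h2 2
        _ ≤ _ := Finset.sum_mul_sq_le_sq_mul_sq _ _ _
    calc hs (A * B) ≤ ∑ i, ∑ j, (∑ k, ‖A i k‖ ^ 2) * ∑ k, ‖B k j‖ ^ 2 :=
          Finset.sum_le_sum fun i _ => Finset.sum_le_sum fun j _ => h1 i j
      _ = (∑ i, ∑ k, ‖A i k‖ ^ 2) * ∑ j, ∑ k, ‖B k j‖ ^ 2 := by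
          rw [Finset.sum_mul_sum]
      _ = hs A * hs B := by
          unfold hs
          rw [Finset.sum_comm (f := fun j k => ‖B k j‖ ^ 2)]
  · unfold hs
    rw [Matrix.SpecialLinearGroup.coe_inv, Matrix.adjugate_fin_two]
    simp only [Fin.sum_univ_two, Matrix.of_apply, Matrix.cons_val', Matrix.cons_val_zero,
      Matrix.cons_val_one, Matrix.cons_val_fin_one, norm_neg]
    ring
  · have hdet : (A : Mat) 0 0 * (A : Mat) 1 1 - (A : Mat) 0 1 * (A : Mat) 1 0 = 1 := by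
      rw [← Matrix.det_fin_two]
      exact A.det_coe
    have h1 : (1 : ℝ) ≤ ‖(A : Mat) 0 0‖ * ‖(A : Mat) 1 1‖ + ‖(A : Mat) 0 1‖ * ‖(A : Mat) 1 0‖ := by
      have := norm_sub_le ((A : Mat) 0 0 * (A : Mat) 1 1) ((A : Mat) 0 1 * (A : Mat) 1 0)
      rw [hdet, norm_one, norm_mul, norm_mul] at this
      exact this
    unfold hs
    simp only [Fin.sum_univ_two]
    nlinarith [sq_nonneg (‖(A : Mat) 0 0‖ - ‖(A : Mat) 1 1‖),
      sq_nonneg (‖(A : Mat) 0 1‖ - ‖(A : Mat) 1 0‖)]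
  · unfold hs
    simp only [Matrix.conjTranspose_apply, norm_star]
    exact Finset.sum_comm
  · unfold hs
    rw [Matrix.trace, Complex.re_sum]
    refine Finset.sum_congr rfl fun i _ => ?_
    rw [Matrix.diag_apply, Matrix.mul_apply, Complex.re_sum]
    refine Finset.sum_congr rfl fun j _ => ?_
    rw [Matrix.conjTranspose_apply, Complex.star_def, Complex.mul_conj, Complex.ofReal_re,
      Complex.normSq_eq_norm_sq]

end Pool.Agent.Helper38.PQF
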